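import Mathlib
import Pool.Agent.Q237.BN.Col

/-!
# Borsuk numbers of direct sums of matroids

For all finite matroids `M`, `M'` the Borsuk number of the direct sum is the minimum of the Borsuk
numbers of `M` and `M'`; so it is never smaller than both of them.

Proof. By the matroid intersection theorem the bases at maximal distance become disjoint bases of a
matroid `N = M | A ⊕ (M / A)✶`. Tucker's lemma with the label `r X + r Y + ε (X, Y)`, `ε (X, Y)` the
largest `|(X ∪ Y) ∩ G| - 2 r G` for a set `G` spanned by `X ∩ G` and by `Y ∩ G`, shows that the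
disjointness graph of the bases of a matroid `N` has chromatic number at least
`|E \ S| - 2 (r - r S) + 2` for some nonspanning `S`; a colouring by the first element outside `S`
shows that this is an upper bound for every nonspanning `S`. For direct sums the minimum over the
nonspanning sets of the sum is attained in one of the two summands.
-/

set_option autoImplicit false

namespace Pool.Agent.Results.MP_12cbfc_co.DirectSums

open Finset Pool.Agent.Q237.BN

/-- The diameter of the set of bases: the largest `|B ∆ B'|` for bases `B`, `B'`. -/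
noncomputable def diam {α : Type} (M : Matroid α) : ℕ :=
  sSup {d | ∃ B B' : Set α, M.IsBase B ∧ M.IsBase B' ∧ d = (symmDiff B B').ncard}

/-- The set of bases can be partitioned into `k` (possibly empty) parts, each of diameter strictly
less than the diameter of the set of all bases. -/
def Splits {α : Type} (M : Matroid α) (k : ℕ) : Prop :=
  ∃ c : Set α → Fin k, ∀ B B' : Set α, M.IsBase B → M.IsBase B' → c B = c B' →
    (symmDiff B B').ncard < diam M

/-- The Borsuk number, `∞` if there is no such partition. -/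
noncomputable def borsukNumber {α : Type} (M : Matroid α) : ℕ∞ :=
  sInf ((fun k : ℕ => (k : ℕ∞)) '' {k | Splits M k})

section aux

variable {α β : Type}

theorem diam_le [Finite α] (M : Matroid α) {B B' : Set α} (h : M.IsBase B) (h' : M.IsBase B') :
    (symmDiff B B').ncard ≤ diam M := by
  have hbdd : BddAbove {d | ∃ B B' : Set α, M.IsBase B ∧ M.IsBase B' ∧
      d = (symmDiff B B').ncard} := by
    refine ⟨Nat.card α, ?_⟩
    rintro d ⟨B, B', -, -, rfl⟩
    rw [← Set.ncard_univ]
    exact Set.ncard_le_ncard (Set.subset_univ _) (Set.toFinite _)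
  exact le_csSup hbdd ⟨B, B', h, h', rfl⟩

theorem exists_diam [Finite α] (M : Matroid α) :
    ∃ B B' : Set α, M.IsBase B ∧ M.IsBase B' ∧ diam M = (symmDiff B B').ncard := by
  have hbdd : BddAbove {d | ∃ B B' : Set α, M.IsBase B ∧ M.IsBase B' ∧
      d = (symmDiff B B').ncard} := by
    refine ⟨Nat.card α, ?_⟩
    rintro d ⟨B, B', -, -, rfl⟩
    rw [← Set.ncard_univ]
    exact Set.ncard_le_ncard (Set.subset_univ _) (Set.toFinite _)
  obtain ⟨B, hB⟩ := M.exists_isBase
  have hne : {d | ∃ B B' : Set α, M.IsBase B ∧ M.IsBase B' ∧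
      d = (symmDiff B B').ncard}.Nonempty := ⟨(symmDiff B B).ncard, B, B, hB, hB, rfl⟩
  exact Nat.sSup_mem hne hbdd

theorem ncard_sum [Finite α] [Finite β] (Z : Set (α ⊕ β)) :
    Z.ncard = (Sum.inl ⁻¹' Z).ncard + (Sum.inr ⁻¹' Z).ncard := by
  have h1 : Z = Sum.inl '' (Sum.inl ⁻¹' Z) ∪ Sum.inr '' (Sum.inr ⁻¹' Z) := by
    ext x
    cases x <;> simp
  conv_lhs => rw [h1]
  rw [Set.ncard_union_eq ?_ (Set.toFinite _) (Set.toFinite _),
    Set.ncard_image_of_injective _ Sum.inl_injective,
    Set.ncard_image_of_injective _ Sum.inr_injective]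
  rw [Set.disjoint_left]
  rintro x ⟨a, _, rfl⟩ ⟨b, _, hb⟩
  cases hb

theorem symm_sum [Finite α] [Finite β] (X Y : Set (α ⊕ β)) :
    (symmDiff X Y).ncard = (symmDiff (Sum.inl ⁻¹' X) (Sum.inl ⁻¹' Y)).ncard +
      (symmDiff (Sum.inr ⁻¹' X) (Sum.inr ⁻¹' Y)).ncard := by
  rw [ncard_sum]
  rfl

theorem diam_sum [Finite α] [Finite β] (M : Matroid α) (M' : Matroid β) :
    diam (M.sum M') = diam M + diam M' := by
  apply le_antisymm
  · obtain ⟨X, Y, hX, hY, h⟩ := exists_diam (M.sum M')
    rw [h, symm_sum]
    rw [Matroid.sum_isBase_iff] at hX hY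
    exact Nat.add_le_add (diam_le M hX.1 hY.1) (diam_le M' hX.2 hY.2)
  · obtain ⟨B, C, hB, hC, h⟩ := exists_diam M
    obtain ⟨B', C', hB', hC', h'⟩ := exists_diam M'
    have e1 : ∀ (P : Set α) (Q : Set β), Sum.inl ⁻¹' (Sum.inl '' P ∪ Sum.inr '' Q) = P := by
      intro P Q; ext x; simp
    have e2 : ∀ (P : Set α) (Q : Set β), Sum.inr ⁻¹' (Sum.inl '' P ∪ Sum.inr '' Q) = Q := by
      intro P Q; ext x; simp
    have h3 := diam_le (M.sum M') (B := Sum.inl '' B ∪ Sum.inr '' B')
      (B' := Sum.inl '' C ∪ Sum.inr '' C')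
      (by rw [Matroid.sum_isBase_iff, e1, e2]; exact ⟨hB, hB'⟩)
      (by rw [Matroid.sum_isBase_iff, e1, e2]; exact ⟨hC, hC'⟩)
    rw [symm_sum, e1, e1, e2, e2, ← h, ← h'] at h3
    exact h3

theorem splits_left [Finite α] [Finite β] (M : Matroid α) (M' : Matroid β) (k : ℕ)
    (h : Splits M k) : Splits (M.sum M') k := by
  obtain ⟨c, hc⟩ := h
  refine ⟨fun X => c (Sum.inl ⁻¹' X), ?_⟩
  intro X Y hX hY hXY
  rw [Matroid.sum_isBase_iff] at hX hY
  have h1 := hc _ _ hX.1 hY.1 hXY
  have h2 := diam_le M' hX.2 hY.2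
  rw [symm_sum, diam_sum]
  omega

theorem splits_right [Finite α] [Finite β] (M : Matroid α) (M' : Matroid β) (k : ℕ)
    (h : Splits M' k) : Splits (M.sum M') k := by
  obtain ⟨c, hc⟩ := h
  refine ⟨fun X => c (Sum.inr ⁻¹' X), ?_⟩
  intro X Y hX hY hXY
  rw [Matroid.sum_isBase_iff] at hX hY
  have h1 := hc _ _ hX.2 hY.2 hXY
  have h2 := diam_le M hX.1 hY.1
  rw [symm_sum, diam_sum]
  omega

/-- the colouring by the first element outside `S` -/
theorem splits_of_upper [Fintype α] [DecidableEq α] {M : Matroid α} {A : Finset α}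
    (hA : Cert M A) (S : Finset α) (hS : rN M A S < rN M A univ) (k : ℕ)
    (hk : Fintype.card α + 2 * rN M A S + 2 ≤ k + S.card + 2 * rN M A univ) : Splits M k := by
  classical
  obtain ⟨c, hc⟩ := upper hA S hS k hk
  refine ⟨fun B => c (Set.toFinite B).toFinset, ?_⟩
  intro B B' hB hB' hBB
  have e : ∀ B : Set α, (((Set.toFinite B).toFinset : Finset α) : Set α) = B :=
    fun B => Set.Finite.coe_toFinset _
  have hb : M.IsBase (((Set.toFinite B).toFinset : Finset α) : Set α) := by rw [e]; exact hB
  have hb' : M.IsBase (((Set.toFinite B').toFinset : Finset α) : Set α) := by rw [e]; exact hB'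
  obtain ⟨C₁, C₂, h1, h2, h3⟩ := hc _ _ hb hb' hBB
  have h4 := symm_card M hb hb'
  have h5 := symm_card M h1 h2
  rw [e, e] at h4
  have h6 := diam_le M h1 h2
  omega

/-- tight bases with disjoint sets are at distance `diam M` -/
theorem diam_of_disjoint [Fintype α] [DecidableEq α] (M : Matroid α) (A : Finset α)
    {B₁ B₂ : Finset α} (h1 : Tight M A B₁) (h2 : Tight M A B₂)
    (hd : Disjoint (T M A B₁) (T M A B₂)) :
    (symmDiff (B₁ : Set α) (B₂ : Set α)).ncard = diam M := by
  apply le_antisymm (diam_le M h1.1 h2.1)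
  obtain ⟨C, C', hC, hC', h⟩ := exists_diam M
  obtain ⟨D, rfl, hD⟩ := exists_finset_base M hC
  obtain ⟨D', rfl, hD'⟩ := exists_finset_base M hC'
  rw [h, symm_card M hD hD', symm_card M h1.1 h2.1]
  have := far_of_disjoint M A h1 h2 hd hD hD'
  omega

open Classical in
theorem lower_sum [Fintype α] [Fintype β] (M : Matroid α) (M' : Matroid β) (A : Finset α)
    (A' : Finset β) (k : ℕ) (h : Splits (M.sum M') k) :
    ∃ (S : Finset α) (S' : Finset β), (rN M A S < rN M A univ ∨ rN M' A' S' < rN M' A' univ) ∧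
      Fintype.card α + Fintype.card β + 2 * (rN M A S + rN M' A' S') + 2 ≤
        k + (S.card + S'.card) + 2 * (rN M A univ + rN M' A' univ) := by
  obtain ⟨c, hc⟩ := h
  let r : Finset (α ⊕ β) → ℕ := fun S => rN M A S.toLeft + rN M' A' S.toRight
  have hr : Pool.Agent.H478R3.Borsuk.IsRF r :=
    { empty := by
        show rN M A (∅ : Finset (α ⊕ β)).toLeft + rN M' A' (∅ : Finset (α ⊕ β)).toRight = 0
        have e1 : (∅ : Finset (α ⊕ β)).toLeft = ∅ := by ext x; simp
        have e2 : (∅ : Finset (α ⊕ β)).toRight = ∅ := by ext x; simp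
        rw [e1, e2, (rN_RF M A).empty, (rN_RF M' A').empty]
      mono := by
        intro X Y hXY
        exact Nat.add_le_add ((rN_RF M A).mono _ _ (toLeft_subset_toLeft hXY))
          ((rN_RF M' A').mono _ _ (toRight_subset_toRight hXY))
      ins := by
        intro x X
        show rN M A (insert x X).toLeft + rN M' A' (insert x X).toRight ≤ _
        cases x with
        | inl a =>
          rw [toLeft_insert_inl, toRight_insert_inl]
          have := (rN_RF M A).ins a X.toLeft
          show _ ≤ rN M A X.toLeft + rN M' A' X.toRight + 1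
          omega
        | inr b =>
          rw [toLeft_insert_inr, toRight_insert_inr]
          have := (rN_RF M' A').ins b X.toRight
          show _ ≤ rN M A X.toLeft + rN M' A' X.toRight + 1
          omega
      sub := by
        intro X Y
        show rN M A (X ∪ Y).toLeft + rN M' A' (X ∪ Y).toRight +
          (rN M A (X ∩ Y).toLeft + rN M' A' (X ∩ Y).toRight) ≤
          rN M A X.toLeft + rN M' A' X.toRight + (rN M A Y.toLeft + rN M' A' Y.toRight)
        rw [toLeft_union, toRight_union, toLeft_inter, toRight_inter]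
        have h1 := (rN_RF M A).sub X.toLeft Y.toLeft
        have h2 := (rN_RF M' A').sub X.toRight Y.toRight
        omega }
  let V : Finset (α ⊕ β) → Prop := fun S => ∃ B B', Tight M A B ∧ Tight M' A' B' ∧
    (T M A B).disjSum (T M' A' B') = S
  have hunivL : (univ : Finset (α ⊕ β)).toLeft = univ := by ext x; simp
  have hunivR : (univ : Finset (α ⊕ β)).toRight = univ := by ext x; simp
  have hru : r univ = rN M A univ + rN M' A' univ := by
    show rN M A (univ : Finset (α ⊕ β)).toLeft + rN M' A' (univ : Finset (α ⊕ β)).toRight = _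
    rw [hunivL, hunivR]
  have hV : ∀ S, r S = r univ → ∃ W ⊆ S, V W := by
    intro S hS
    rw [hru] at hS
    have h0 : rN M A S.toLeft + rN M' A' S.toRight = rN M A univ + rN M' A' univ := hS
    have h1 := (rN_RF M A).mono _ _ (subset_univ S.toLeft)
    have h2 := (rN_RF M' A').mono _ _ (subset_univ S.toRight)
    obtain ⟨B, hB, hBS⟩ := exists_tight M A S.toLeft (by omega)
    obtain ⟨B', hB', hBS'⟩ := exists_tight M' A' S.toRight (by omega)
    refine ⟨(T M A B).disjSum (T M' A' B'), ?_, B, B', hB, hB', rfl⟩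
    rw [disjSum_subset]
    exact ⟨hBS, hBS'⟩
  let c' : Finset (α ⊕ β) → Fin k := fun S =>
    if hS : V S then
      c (Sum.inl '' ((hS.choose : Finset α) : Set α) ∪
        Sum.inr '' ((hS.choose_spec.choose : Finset β) : Set β))
    else c ∅
  have e1 : ∀ (P : Set α) (Q : Set β), Sum.inl ⁻¹' (Sum.inl '' P ∪ Sum.inr '' Q) = P := by
    intro P Q; ext x; simp
  have e2 : ∀ (P : Set α) (Q : Set β), Sum.inr ⁻¹' (Sum.inl '' P ∪ Sum.inr '' Q) = Q := by
    intro P Q; ext x; simp
  have hc' : ∀ X Y, V X → V Y → Disjoint X Y → c' X ≠ c' Y := by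
    intro X Y hX hY hXY heq
    simp only [c', dif_pos hX, dif_pos hY] at heq
    obtain ⟨t1, t1', f1⟩ := hX.choose_spec.choose_spec
    obtain ⟨t2, t2', f2⟩ := hY.choose_spec.choose_spec
    have hlt := hc _ _ (by rw [Matroid.sum_isBase_iff, e1, e2]; exact ⟨t1.1, t1'.1⟩)
      (by rw [Matroid.sum_isBase_iff, e1, e2]; exact ⟨t2.1, t2'.1⟩) heq
    rw [symm_sum, diam_sum, e1, e1, e2, e2] at hlt
    have d1 : Disjoint (T M A hX.choose) (T M A hY.choose) := by
      rw [Finset.disjoint_left]
      intro a ha hb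
      refine (Finset.disjoint_left.1 hXY) (a := Sum.inl a) ?_ ?_
      · rw [← f1]; simpa using ha
      · rw [← f2]; simpa using hb
    have d2 : Disjoint (T M' A' hX.choose_spec.choose) (T M' A' hY.choose_spec.choose) := by
      rw [Finset.disjoint_left]
      intro a ha hb
      refine (Finset.disjoint_left.1 hXY) (a := Sum.inr a) ?_ ?_
      · rw [← f1]; simpa using ha
      · rw [← f2]; simpa using hb
    rw [diam_of_disjoint M A t1 t2 d1, diam_of_disjoint M' A' t1' t2' d2] at hlt
    omega
  have hR : 1 ≤ r univ := by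
    by_contra hcon
    have h0 : r ∅ = r univ := by rw [hr.empty]; omega
    obtain ⟨W, hW, hVW⟩ := hV ∅ h0
    have hW0 : W = ∅ := subset_empty.1 hW
    subst hW0
    exact hc' ∅ ∅ hVW hVW (disjoint_empty_left _) rfl
  obtain ⟨S, hS, hS2⟩ := engine hr hR V hV c' hc'
  refine ⟨S.toLeft, S.toRight, ?_, ?_⟩
  · by_contra hcon
    push Not at hcon
    have : rN M A S.toLeft + rN M' A' S.toRight < r univ := hS
    rw [hru] at this
    omega
  · rw [Fintype.card_sum, hru, ← card_toLeft_add_card_toRight (u := S)] at hS2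
    have : r S = rN M A S.toLeft + rN M' A' S.toRight := rfl
    rw [this] at hS2
    exact hS2

theorem splits_or [Finite α] [Finite β] (M : Matroid α) (M' : Matroid β) (k : ℕ)
    (h : Splits (M.sum M') k) : Splits M k ∨ Splits M' k := by
  classical
  have := Fintype.ofFinite α
  have := Fintype.ofFinite β
  obtain ⟨A, hA⟩ := exists_cert M
  obtain ⟨A', hA'⟩ := exists_cert M'
  obtain ⟨S, S', h1, h2⟩ := lower_sum M M' A A' k h
  have m1 := missing hA S
  have m2 := missing hA' S'
  have m3 := (rN_RF M A).mono _ _ (subset_univ S)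
  have m4 := (rN_RF M' A').mono _ _ (subset_univ S')
  rcases h1 with h1 | h1
  · exact Or.inl (splits_of_upper hA S h1 k (by omega))
  · exact Or.inr (splits_of_upper hA' S' h1 k (by omega))

end aux

theorem result :
    ∀ (α β : Type) [Finite α] [Finite β] (M : Matroid α) (M' : Matroid β),
      borsukNumber (M.sum M') = min (borsukNumber M) (borsukNumber M') := by
  intro α β _ _ M M'
  unfold borsukNumber
  have h : {k | Splits (M.sum M') k} = {k | Splits M k} ∪ {k | Splits M' k} := by
    ext k
    constructor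
    · intro hk
      exact splits_or M M' k hk
    · rintro (hk | hk)
      · exact splits_left M M' k hk
      · exact splits_right M M' k hk
  rw [h, Set.image_union, sInf_union]

end Pool.Agent.Results.MP_12cbfc_co.DirectSums
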